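import Pool.Agent.V11101.WeierSlice

/-!
# Slices of prevalent Weierstrass graphs
-/

open Set Filter Topology MeasureTheory
open Pool.Agent.V11101.WS

namespace Pool.Agent.Results.MP_60983f_an.Slices

/-! ### The Banach space `Lip(S¹)` -/

/-- Lipschitz functions on the circle `ℝ/ℤ`, as a set of functions -/
def lipSub : Submodule ℝ (UnitAddCircle → ℝ) where
  carrier := {g | ∃ L : ℝ, ∀ x y, |g x - g y| ≤ L * dist x y}
  add_mem' := by
    rintro f g ⟨L, hL⟩ ⟨M, hM⟩
    refine ⟨L + M, fun x y => ?_⟩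
    have h : (f + g) x - (f + g) y = (f x - f y) + (g x - g y) := by
      simp only [Pi.add_apply]; ring
    rw [h, add_mul]
    exact (abs_add_le _ _).trans (add_le_add (hL x y) (hM x y))
  zero_mem' := ⟨0, fun x y => by simp⟩
  smul_mem' := by
    rintro c f ⟨L, hL⟩
    refine ⟨|c| * L, fun x y => ?_⟩
    have h : (c • f) x - (c • f) y = c * (f x - f y) := by
      simp only [Pi.smul_apply, smul_eq_mul]; ring
    rw [h, abs_mul, mul_assoc]
    exact mul_le_mul_of_nonneg_left (hL x y) (abs_nonneg c)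

/-- The space of Lipschitz functions on the circle. -/
def LipS : Type := lipSub

noncomputable instance : AddCommGroup LipS := inferInstanceAs (AddCommGroup lipSub)
noncomputable instance : Module ℝ LipS := inferInstanceAs (Module ℝ lipSub)

/-- The function underlying an element of `LipS`. -/
def LipS.fn (g : LipS) : UnitAddCircle → ℝ := Subtype.val (show lipSub from g)

lemma fn_lip (g : LipS) : ∃ L : ℝ, ∀ x y, |g.fn x - g.fn y| ≤ L * dist x y :=
  Subtype.property (show lipSub from g)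

lemma fn_add (f g : LipS) (x : UnitAddCircle) : (f + g).fn x = f.fn x + g.fn x := rfl
lemma fn_sub (f g : LipS) (x : UnitAddCircle) : (f - g).fn x = f.fn x - g.fn x := rfl
lemma fn_neg (g : LipS) (x : UnitAddCircle) : (-g).fn x = - g.fn x := rfl
lemma fn_zero (x : UnitAddCircle) : (0 : LipS).fn x = 0 := rfl

/-- The Lipschitz norm `sup |g| + sup |g x - g y| / |x - y|`. -/
noncomputable def lipNorm (g : LipS) : ℝ :=
  (⨆ x, |g.fn x|) + ⨆ q : UnitAddCircle × UnitAddCircle, |g.fn q.1 - g.fn q.2| / dist q.1 q.2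

lemma bdd1 (g : LipS) : BddAbove (range fun x => |g.fn x|) := by
  obtain ⟨L, hL⟩ := fn_lip g
  refine ⟨|g.fn 0| + |L| * (1 / 2), ?_⟩
  rintro _ ⟨x, rfl⟩
  have h1 := hL x 0
  have h2 : dist x 0 ≤ 1 / 2 := by
    rw [dist_zero_right]
    have := AddCircle.norm_le_half_period (1 : ℝ) (x := x) one_ne_zero
    rwa [abs_one] at this
  have h3 : L * dist x 0 ≤ |L| * (1 / 2) := mul_le_mul (le_abs_self L) h2 dist_nonneg (abs_nonneg L)
  have h4 : |g.fn x| ≤ |g.fn x - g.fn 0| + |g.fn 0| := by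
    have := abs_add_le (g.fn x - g.fn 0) (g.fn 0)
    rwa [sub_add_cancel] at this
  show |g.fn x| ≤ _
  linarith

lemma bdd2 (g : LipS) : BddAbove (range fun q : UnitAddCircle × UnitAddCircle =>
    |g.fn q.1 - g.fn q.2| / dist q.1 q.2) := by
  obtain ⟨L, hL⟩ := fn_lip g
  refine ⟨|L|, ?_⟩
  rintro _ ⟨q, rfl⟩
  show |g.fn q.1 - g.fn q.2| / dist q.1 q.2 ≤ |L|
  refine div_le_of_le_mul₀ dist_nonneg (abs_nonneg L) ?_
  exact (hL q.1 q.2).trans (mul_le_mul_of_nonneg_right (le_abs_self L) dist_nonneg)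

lemma sup2_nonneg (g : LipS) : 0 ≤ ⨆ q : UnitAddCircle × UnitAddCircle,
    |g.fn q.1 - g.fn q.2| / dist q.1 q.2 :=
  Real.iSup_nonneg fun _ => div_nonneg (abs_nonneg _) dist_nonneg

lemma sup1_nonneg (g : LipS) : 0 ≤ ⨆ x, |g.fn x| := Real.iSup_nonneg fun _ => abs_nonneg _

lemma abs_fn_le (g : LipS) (x : UnitAddCircle) : |g.fn x| ≤ lipNorm g :=
  (le_ciSup (bdd1 g) x).trans (le_add_of_nonneg_right (sup2_nonneg g))

lemma abs_fn_sub_le (g : LipS) (x y : UnitAddCircle) :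
    |g.fn x - g.fn y| ≤ lipNorm g * dist x y := by
  rcases eq_or_ne x y with rfl | h
  · simp
  · have h1 := le_ciSup (bdd2 g) (x, y)
    have h2 : |g.fn x - g.fn y| / dist x y ≤ lipNorm g :=
      h1.trans (le_add_of_nonneg_left (sup1_nonneg g))
    rwa [div_le_iff₀ (dist_pos.2 h)] at h2

/-- The Lipschitz norm as a group norm. -/
noncomputable def lipGroupNorm : AddGroupNorm LipS where
  toFun := lipNorm
  map_zero' := by
    unfold lipNorm
    simp [fn_zero]
  add_le' f g := by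
    unfold lipNorm
    have h1 : (⨆ x, |(f + g).fn x|) ≤ (⨆ x, |f.fn x|) + ⨆ x, |g.fn x| := by
      refine ciSup_le fun x => ?_
      rw [fn_add]
      exact (abs_add_le _ _).trans (add_le_add (le_ciSup (bdd1 f) x) (le_ciSup (bdd1 g) x))
    have h2 : (⨆ q : UnitAddCircle × UnitAddCircle, |(f + g).fn q.1 - (f + g).fn q.2| /
        dist q.1 q.2) ≤ (⨆ q : UnitAddCircle × UnitAddCircle, |f.fn q.1 - f.fn q.2| /
        dist q.1 q.2) + ⨆ q : UnitAddCircle × UnitAddCircle, |g.fn q.1 - g.fn q.2| /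
        dist q.1 q.2 := by
      refine ciSup_le fun q => ?_
      have h3 : (f + g).fn q.1 - (f + g).fn q.2 = (f.fn q.1 - f.fn q.2) + (g.fn q.1 - g.fn q.2) := by
        rw [fn_add, fn_add]; ring
      rw [h3]
      refine (div_le_div_of_nonneg_right (abs_add_le _ _) dist_nonneg).trans ?_
      rw [add_div]
      exact add_le_add (le_ciSup (bdd2 f) q) (le_ciSup (bdd2 g) q)
    linarith
  neg' g := by
    unfold lipNorm
    congr 1
    · refine iSup_congr fun x => ?_
      rw [fn_neg, abs_neg]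
    · refine iSup_congr fun q => ?_
      rw [fn_neg, fn_neg, neg_sub_neg, abs_sub_comm]
  eq_zero_of_map_eq_zero' g hg := by
    have h1 : ∀ x, g.fn x = 0 := fun x => by
      have := abs_fn_le g x
      have h2 : lipNorm g = 0 := hg
      rw [h2] at this
      exact abs_nonpos_iff.1 this
    have h2 : (show lipSub from g) = 0 := Subtype.ext (funext h1)
    exact h2

/-- `LipS` with the Lipschitz norm. -/
noncomputable instance : NormedAddCommGroup LipS := lipGroupNorm.toNormedAddCommGroup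

lemma norm_def (g : LipS) : ‖g‖ = lipNorm g := rfl

/-! ### Prevalence -/

/-- A shy subset of a Banach space. -/
def Shy {X : Type} [NormedAddCommGroup X] (A : Set X) : Prop :=
  ∃ (μ : @Measure X (borel X)) (B : Set X), MeasurableSet[borel X] B ∧ A ⊆ B ∧
    (∃ K : Set X, IsCompact K ∧ 0 < μ K ∧ μ K < ⊤) ∧ ∀ x : X, μ ((fun y => x + y) '' B) = 0

/-- A prevalent set: its complement is shy. -/
def Prevalent {X : Type} [NormedAddCommGroup X] (A : Set X) : Prop := Shy Aᶜ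

/-- A prevalent `g` has the property `P`. -/
def HoldsPrevalently {X : Type} [NormedAddCommGroup X] (P : X → Prop) : Prop :=
  ∃ A : Set X, A ⊆ {g | P g} ∧ Prevalent A

theorem not_shy_of_open {X : Type} [NormedAddCommGroup X] (U : Set X) (hU : IsOpen U)
    (hne : U.Nonempty) : ¬ Shy U := by
  rintro ⟨μ, B, -, hUB, ⟨K, hK, hK0, -⟩, hB⟩
  obtain ⟨u0, hu0⟩ := hne
  obtain ⟨t, -, ht⟩ := hK.elim_nhds_subcover (fun x => (fun y => (x - u0) + y) '' U) (by
    intro x _
    have h1 : IsOpen ((fun y => (x - u0) + y) '' U) := (Homeomorph.addLeft (x - u0)).isOpenMap U hU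
    exact h1.mem_nhds ⟨u0, hu0, by simp⟩)
  have h2 : μ K ≤ 0 := by
    have h3 : K ⊆ ⋃ x ∈ t, (fun y => (x - u0) + y) '' B :=
      ht.trans (iUnion₂_mono fun x _ => image_mono hUB)
    have h4 : μ (⋃ x ∈ t, (fun y => (x - u0) + y) '' B) = 0 := by
      refine (measure_biUnion_null_iff t.countable_toSet).2 fun x _ => hB _
    exact (measure_mono h3).trans h4.le
  exact absurd h2 (not_le.2 hK0)

theorem not_holds {X : Type} [NormedAddCommGroup X] (P : X → Prop) (U : Set X) (hU : IsOpen U)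
    (hne : U.Nonempty) (h : ∀ g ∈ U, ¬ P g) : ¬ HoldsPrevalently P := by
  rintro ⟨A, hA, μ, B, hB1, hB2, hB3, hB4⟩
  refine not_shy_of_open U hU hne ⟨μ, B, hB1, ?_, hB3, hB4⟩
  intro g hg
  exact hB2 fun hgA => h g hg (hA hgA)

/-! ### Weierstrass functions and their slices -/

/-- The function `W_g(x) = ∑ b^(-αk) g(b^k x)`. -/
noncomputable def W (b : ℕ) (α : ℝ) (g : UnitAddCircle → ℝ) (x : ℝ) : ℝ :=
  ∑' k : ℕ, (b : ℝ) ^ (-(α * k)) * g (((b : ℝ) ^ k * x : ℝ) : UnitAddCircle)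

/-- The graph of `W_g` over `[0,1]`. -/
noncomputable def graph (b : ℕ) (α : ℝ) (g : UnitAddCircle → ℝ) : Set (EuclideanSpace ℝ (Fin 2)) :=
  (fun x : ℝ => !₂[x, W b α g x]) '' Icc 0 1

/-- The projection `P_θ(x,y) = x cos θ + y sin θ`. -/
noncomputable def P (θ : ℝ) (v : EuclideanSpace ℝ (Fin 2)) : ℝ :=
  v 0 * Real.cos θ + v 1 * Real.sin θ

/-- The slice of the graph in the direction `θ` at the height `t`. -/
noncomputable def slice (b : ℕ) (α : ℝ) (g : UnitAddCircle → ℝ) (θ t : ℝ) :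
    Set (EuclideanSpace ℝ (Fin 2)) :=
  graph b α g ∩ P θ ⁻¹' {t}

/-- The left end `m_θ` of the projection of the graph. -/
noncomputable def mθ (b : ℕ) (α : ℝ) (g : UnitAddCircle → ℝ) (θ : ℝ) : ℝ :=
  sInf (P θ '' graph b α g)

/-- The right end `M_θ` of the projection of the graph. -/
noncomputable def Mθ (b : ℕ) (α : ℝ) (g : UnitAddCircle → ℝ) (θ : ℝ) : ℝ :=
  sSup (P θ '' graph b α g)

/-- The property in Q1. -/
def Q1Property (b : ℕ) (α : ℝ) (g : LipS) : Prop :=
  (∃ x y, g.fn x ≠ g.fn y) → ∀ θ : ℝ, 0 ≤ θ → θ < 2 * Real.pi → Real.sin θ ≠ 0 →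
    ∀ t ∈ Icc (mθ b α g.fn θ) (Mθ b α g.fn θ),
      dimH (slice b α g.fn θ t) = ENNReal.ofReal (1 - α)

/-- The property in Q2. -/
def Q2Property (b : ℕ) (α : ℝ) (g : LipS) : Prop :=
  (∃ x y, g.fn x ≠ g.fn y) → ∀ θ : ℝ, 0 ≤ θ → θ < 2 * Real.pi → Real.sin θ ≠ 0 →
    ∀ t ∈ Ioo (mθ b α g.fn θ) (Mθ b α g.fn θ),
      dimH (slice b α g.fn θ t) = ENNReal.ofReal (1 - α)

lemma W_eq (b : ℕ) (α : ℝ) (g : UnitAddCircle → ℝ) (x : ℝ) :
    W b α g x = Wb b ((b : ℝ) ^ (-α)) g x := by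
  unfold W Wb
  refine tsum_congr fun k => ?_
  rw [← Real.rpow_natCast ((b : ℝ) ^ (-α)) k, ← Real.rpow_mul (Nat.cast_nonneg b), neg_mul]

/-- A point of increase which is singular enough produces a one-point slice. -/
theorem slice_of_increase (b : ℕ) (α : ℝ) (g : UnitAddCircle → ℝ) (M : ℝ)
    (hM : ∀ x, |W b α g x| ≤ M) (x0 δ : ℝ) (hx0 : 0 < x0) (hx1 : x0 < 1) (hδ : 0 < δ)
    (hinc : ∀ s : ℝ, (s = 1 ∨ s = -1) → ∀ y : ℝ, 0 < y → y < δ →
      0 < s * (W b α g (x0 + s * y) - W b α g x0)) :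
    ∃ θ : ℝ, 0 < θ ∧ θ < Real.pi / 2 ∧ ∃ t ∈ Ioo (mθ b α g θ) (Mθ b α g θ),
      slice b α g θ t = {!₂[x0, W b α g x0]} := by
  have hM0 : 0 ≤ M := (abs_nonneg _).trans (hM 0)
  set θ : ℝ := min 1 (δ / (8 * M + 8)) with hθ
  have hθ0 : 0 < θ := lt_min one_pos (by positivity)
  have hθ1 : θ ≤ 1 := min_le_left _ _
  have hθ2 : θ * (8 * M + 8) ≤ δ := by
    rw [← le_div_iff₀ (by positivity)]; exact min_le_right _ _
  have hπ : 1 < Real.pi / 2 := by linarith [Real.pi_gt_three]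
  have hsin0 : 0 < Real.sin θ := Real.sin_pos_of_pos_of_lt_pi hθ0 (by linarith)
  have hsin1 : Real.sin θ ≤ θ := Real.sin_le hθ0.le
  have hcos : 1 / 2 ≤ Real.cos θ := by
    have h1 := Real.one_sub_sq_div_two_le_cos (x := θ)
    nlinarith
  have hcos0 : 0 < Real.cos θ := by linarith
  -- the function `F`
  set F : ℝ → ℝ := fun x => x * Real.cos θ + W b α g x * Real.sin θ with hF
  have hPF : ∀ x, P θ !₂[x, W b α g x] = F x := fun x => by
    unfold P
    simp [hF]
  have hsign : ∀ s : ℝ, (s = 1 ∨ s = -1) → ∀ y : ℝ, 0 < y → 0 < s * (F (x0 + s * y) - F x0) := by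
    intro s hs y hy
    have hs2 : s * s = 1 := by rcases hs with rfl | rfl <;> norm_num
    have hs1 : |s| = 1 := by rcases hs with rfl | rfl <;> simp
    have h1 : s * (F (x0 + s * y) - F x0) = y * Real.cos θ +
        s * (W b α g (x0 + s * y) - W b α g x0) * Real.sin θ := by
      rw [hF]
      show s * ((x0 + s * y) * Real.cos θ + W b α g (x0 + s * y) * Real.sin θ -
        (x0 * Real.cos θ + W b α g x0 * Real.sin θ)) = _
      linear_combination (y * Real.cos θ) * hs2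
    rw [h1]
    rcases lt_or_ge y δ with h2 | h2
    · have h3 := hinc s hs y hy h2
      positivity
    · have h3 : |s * (W b α g (x0 + s * y) - W b α g x0)| ≤ 2 * M := by
        rw [abs_mul, hs1, one_mul]
        refine (abs_sub _ _).trans ?_
        linarith [hM (x0 + s * y), hM x0]
      have h4 := (abs_le.1 h3).1
      have h5 : -(2 * M) * Real.sin θ ≤
          s * (W b α g (x0 + s * y) - W b α g x0) * Real.sin θ :=
        mul_le_mul_of_nonneg_right h4 hsin0.le
      have h6 : 2 * M * Real.sin θ ≤ 2 * M * θ := mul_le_mul_of_nonneg_left hsin1 (by positivity)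
      nlinarith
  have hmono : ∀ x, x < x0 → F x < F x0 := by
    intro x hx
    have h1 := hsign (-1) (Or.inr rfl) (x0 - x) (by linarith)
    have h2 : x0 + -1 * (x0 - x) = x := by ring
    rw [h2] at h1
    linarith
  have hmono2 : ∀ x, x0 < x → F x0 < F x := by
    intro x hx
    have h1 := hsign 1 (Or.inl rfl) (x - x0) (by linarith)
    have h2 : x0 + 1 * (x - x0) = x := by ring
    rw [h2] at h1
    linarith
  have himg : ∀ x ∈ Icc (0 : ℝ) 1, F x ∈ P θ '' graph b α g := fun x hx =>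
    ⟨!₂[x, W b α g x], ⟨x, hx, rfl⟩, hPF x⟩
  have hbdd : ∀ y ∈ P θ '' graph b α g, |y| ≤ 1 + M := by
    rintro _ ⟨_, ⟨x, hx, rfl⟩, rfl⟩
    show |P θ !₂[x, W b α g x]| ≤ 1 + M
    rw [hPF]
    refine (abs_add_le _ _).trans ?_
    rw [abs_mul, abs_mul, abs_of_nonneg hx.1]
    have h1 := Real.abs_cos_le_one θ
    have h2 := Real.abs_sin_le_one θ
    have h3 : x * |Real.cos θ| ≤ 1 * 1 := mul_le_mul hx.2 h1 (abs_nonneg _) zero_le_one
    have h4 : |W b α g x| * |Real.sin θ| ≤ M * 1 := mul_le_mul (hM x) h2 (abs_nonneg _) hM0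
    linarith
  refine ⟨θ, hθ0, by linarith, F x0, ⟨?_, ?_⟩, ?_⟩
  · have h1 : mθ b α g θ ≤ F 0 := csInf_le ⟨-(1 + M), fun y hy => (abs_le.1 (hbdd y hy)).1⟩
      (himg 0 ⟨le_rfl, zero_le_one⟩)
    exact h1.trans_lt (hmono 0 hx0)
  · have h1 : F 1 ≤ Mθ b α g θ := le_csSup ⟨1 + M, fun y hy => (abs_le.1 (hbdd y hy)).2⟩
      (himg 1 ⟨zero_le_one, le_rfl⟩)
    exact (hmono2 1 hx1).trans_le h1
  · ext v
    rw [mem_singleton_iff]
    constructor
    · rintro ⟨⟨x, hx, rfl⟩, hv⟩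
      have h1 : F x = F x0 := by
        rw [← hPF x]; exact hv
      rcases lt_trichotomy x x0 with h | h | h
      · exact absurd h1 (hmono x h).ne
      · rw [h]
      · exact absurd h1 (hmono2 x h).ne'
    · rintro rfl
      exact ⟨⟨x0, ⟨hx0.le, hx1.le⟩, rfl⟩, hPF x0⟩

/-- **Main result.** For all `b ≥ 2` and `0 < α < 1` there is a nonempty open set of functions
`g ∈ Lip(S¹)` for which some non-vertical, non-extremal slice of the graph of `W_g` is a single
point; consequently the statements in Q1 and Q2 are false. -/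
theorem result (b : ℕ) (hb : 2 ≤ b) (α : ℝ) (hα0 : 0 < α) (hα1 : α < 1) :
    (∃ U : Set LipS, IsOpen U ∧ U.Nonempty ∧ ∀ g ∈ U, (∃ x y, g.fn x ≠ g.fn y) ∧
      ∃ θ : ℝ, 0 < θ ∧ θ < Real.pi / 2 ∧ ∃ t ∈ Ioo (mθ b α g.fn θ) (Mθ b α g.fn θ),
        ∃ v, slice b α g.fn θ t = {v}) ∧
    ¬ HoldsPrevalently (Q1Property b α) ∧ ¬ HoldsPrevalently (Q2Property b α) := by
  have hb0 : (0 : ℝ) < b := by
    have : 0 < b := by omega
    exact_mod_cast this
  have hb1 : (1 : ℝ) < b := by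
    have : 1 < b := by omega
    exact_mod_cast this
  set β : ℝ := (b : ℝ) ^ (-α) with hβ
  have hβ0 : 0 < β := Real.rpow_pos_of_pos hb0 _
  have hβ1 : β < 1 := Real.rpow_lt_one_of_one_lt_of_neg hb1 (by linarith)
  have hγ : 1 < (b : ℝ) * β := by
    have h1 : (b : ℝ) * β = (b : ℝ) ^ (1 - α) := by
      rw [hβ, sub_eq_add_neg, Real.rpow_add hb0, Real.rpow_one]
    rw [h1]
    exact Real.one_lt_rpow hb1 (by linarith)
  obtain ⟨η, ε, δ, hη, hε, hδ, hloc⟩ := local_increase b hb β hβ0 hβ1 hγ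
  -- the centre of the ball
  let G : LipS := (show lipSub from ⟨g0 η, 1 / η, g0_lip hη⟩)
  have hG : ∀ x, G.fn x = g0 η x := fun x => rfl
  have key : ∀ g ∈ Metric.ball G ε, (∃ x y, g.fn x ≠ g.fn y) ∧
      ∃ θ : ℝ, 0 < θ ∧ θ < Real.pi / 2 ∧ ∃ t ∈ Ioo (mθ b α g.fn θ) (Mθ b α g.fn θ),
        ∃ v, slice b α g.fn θ t = {v} := by
    intro g hg
    have hnorm : lipNorm (g - G) < ε := by
      rw [Metric.mem_ball, dist_eq_norm] at hg
      exact hg
    set h : UnitAddCircle → ℝ := (g - G).fn with hh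
    have hgh : g.fn = fun x => g0 η x + h x := by
      funext x
      rw [hh, fn_sub, hG]
      ring
    have hh1 : ∀ x, |h x| ≤ ε := fun x => (abs_fn_le _ x).trans hnorm.le
    have hh2 : ∀ x y, |h x - h y| ≤ ε * dist x y := fun x y =>
      (abs_fn_sub_le _ x y).trans (mul_le_mul_of_nonneg_right hnorm.le dist_nonneg)
    have hinc : ∀ s : ℝ, (s = 1 ∨ s = -1) → ∀ y : ℝ, 0 < y → y < δ →
        0 < s * (W b α g.fn (1 / b + s * y) - W b α g.fn (1 / b)) := by
      intro s hs y hy0 hy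
      have h1 := hloc h hh1 hh2 s hs y hy0 hy
      rw [W_eq, W_eq, hgh]
      exact h1
    constructor
    · -- `g` is not constant
      by_contra hcon
      push Not at hcon
      have h1 := hinc 1 (Or.inl rfl) (δ / 2) (by linarith) (by linarith)
      have h2 : W b α g.fn (1 / b + 1 * (δ / 2)) = W b α g.fn (1 / b) := by
        unfold W
        refine tsum_congr fun k => ?_
        rw [hcon (((b : ℝ) ^ k * (1 / b + 1 * (δ / 2)) : ℝ) : UnitAddCircle)
          (((b : ℝ) ^ k * (1 / b) : ℝ) : UnitAddCircle)]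
      rw [h2, sub_self, mul_zero] at h1
      exact lt_irrefl _ h1
    · have hMg : ∀ x, |W b α g.fn x| ≤ lipNorm g / (1 - β) := fun x => by
        rw [W_eq]
        exact abs_Wb_le hβ0 hβ1 b g.fn (abs_fn_le g) x
      obtain ⟨θ, h1, h2, t, ht, h3⟩ := slice_of_increase b α g.fn _ hMg (1 / b) δ (by positivity)
        (by rw [div_lt_one hb0]; exact hb1) hδ hinc
      exact ⟨θ, h1, h2, t, ht, _, h3⟩
  have hU : IsOpen (Metric.ball G ε) := Metric.isOpen_ball
  have hne : (Metric.ball G ε).Nonempty := ⟨G, Metric.mem_ball_self hε⟩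
  have hbad : ∀ g ∈ Metric.ball G ε, ¬ Q2Property b α g := by
    intro g hg hQ
    obtain ⟨hnc, θ, hθ0, hθ1, t, ht, v, hv⟩ := key g hg
    have hπ := Real.pi_pos
    have h1 := hQ hnc θ hθ0.le (by linarith)
      (Real.sin_pos_of_pos_of_lt_pi hθ0 (by linarith)).ne' t ht
    rw [hv, dimH_singleton] at h1
    have h2 : 0 < ENNReal.ofReal (1 - α) := ENNReal.ofReal_pos.2 (by linarith)
    rw [← h1] at h2
    exact lt_irrefl _ h2
  refine ⟨⟨Metric.ball G ε, hU, hne, key⟩, ?_, ?_⟩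
  · refine not_holds _ _ hU hne fun g hg hQ => hbad g hg ?_
    intro hnc θ h0 h1 h2 t ht
    exact hQ hnc θ h0 h1 h2 t (Ioo_subset_Icc_self ht)
  · exact not_holds _ _ hU hne hbad

end Pool.Agent.Results.MP_60983f_an.Slices
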